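import Pool.Agent.H72.CH.Targets2

/-!
# Chains of equivalence relations: the hypotheses of the theorem, symbols without places
-/

set_option autoImplicit false
set_option linter.unusedVariables false

namespace Pool.Agent.H72.CH

open Pool.Agent.H68.BP Pool.Agent.H58.SF Pool.Agent.H53.NR
open Function

/-- The homogeneous structure `𝔹` has chain completions: for some chain of `m + 1` equivalence
relations which are preserved by the automorphisms (given by its level function `lv`), the last of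
which is the equality, it has local completions relative to the chain. -/
def ChainCompletions {V : Type} {ρ : Sig} (𝔹 : Str ρ V) : Prop :=
  ∃ (m : ℕ) (lv : V → V → ℕ), Lev m lv ∧
    (∀ g : V ≃ V, IsAut 𝔹 g → ∀ x y, lv (g x) (g y) = lv x y) ∧ RelLC 𝔹 m lv

/-- symbols without places can be dropped -/
def T_ZRC : Prop := ∀ (V : Type) (ρ : Sig) (𝔹 : Str ρ V) (m : ℕ) (lv : V → V → ℕ), Nonempty V →
  Homogeneous 𝔹 → RelLC 𝔹 m lv → ∃ (ρ' : Sig) (𝔹' : Str ρ' V), (∀ l, 1 ≤ ρ'.ar l) ∧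
    Homogeneous 𝔹' ∧ RelLC 𝔹' m lv ∧ ∀ g : V ≃ V, IsAut 𝔹' g ↔ IsAut 𝔹 g

/-- finitely bounded -/
def T_FB0 : Prop := ∀ (V : Type) (ρ : Sig) (𝔹 : Str ρ V) (m : ℕ) (lv : V → V → ℕ), Nonempty V →
  Lev m lv → (∀ x y : Fin 2 → V, Pool.Agent.H57.AR.tp 𝔹 x = Pool.Agent.H57.AR.tp 𝔹 y →
    lv (x 0) (x 1) = lv (y 0) (y 1)) → RelLC 𝔹 m lv → FinitelyBounded 𝔹

end Pool.Agent.H72.CH
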