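import Pool.Agent.H72.CH.Asm
import Pool.Agent.H72.CH.Targets3
import Pool.Agent.H49.CL.All
import Pool.Agent.H57.CN.All
import Pool.Agent.H59.CH.AML
import Pool.Agent.H52.CH.CNP
import Pool.Agent.H66.CH.CPT
import Pool.Agent.H99.CHL.CYC
import Pool.Agent.H59.CH.DBE
import Pool.Agent.H67.CH.DIC
import Pool.Agent.H52.CH.EMB
import Pool.Agent.H34.CH.EPC
import Pool.Agent.H66.CH.EXA
import Pool.Agent.H27.CH.EXF
import Pool.Agent.H36.CH.FBD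
import Pool.Agent.H1.CHL.FNC
import Pool.Agent.H17.CH.FRE
import Pool.Agent.H65.CHN.GLN
import Pool.Agent.H59.CH.GLU
import Pool.Agent.H34.CH.KFN
import Pool.Agent.H51.CH.KMN
import Pool.Agent.H66.CH.KST
import Pool.Agent.H40.CHL.LVE
import Pool.Agent.H1.CHL.NEX
import Pool.Agent.H46.CH2.NPT
import Pool.Agent.H52.CH.NQC
import Pool.Agent.H36.CH.OLG
import Pool.Agent.H17.CH.OLS
import Pool.Agent.H34.CH.ONE
import Pool.Agent.H59.CH.PPB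
import Pool.Agent.H74.CH.PPN
import Pool.Agent.H51.CH.PTH
import Pool.Agent.H36.CH.RGD
import Pool.Agent.H73.CH.RGE
import Pool.Agent.H66.CH.RGI
import Pool.Agent.H67.CH.RLN
import Pool.Agent.H52.CH.RMX
import Pool.Agent.H36.CH.SB1
import Pool.Agent.H4.CH.SBA
import Pool.Agent.H1.CHL.SBE
import Pool.Agent.H1.CHL.SBH
import Pool.Agent.H11.CH.STP
import Pool.Agent.H99.CHL.ZZN

/-!
# Chains of equivalence relations: the theorem
-/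

set_option autoImplicit false
set_option linter.unusedVariables false

namespace Pool.Agent.H72.CH

open Pool.Agent.H68.BP Pool.Agent.H58.SF Pool.Agent.H53.NR
open Pool.Agent.H44.KR (HB Amg Tyi TpOn Rz LcN)
open Pool.Agent.H44.FB (CptC EmbC)
open Function

theorem a_RA : RA where
  rln := Pool.Agent.H67.CH.pf_RLN
  exa := Pool.Agent.H66.CH.pf_EXA
  lve := Pool.Agent.H40.CHL.pf_LVE
  exf := Pool.Agent.H27.CH.pf_EXF
  nex := Pool.Agent.H1.CHL.pf_NEX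
  aml := Pool.Agent.H59.CH.pf_AML
  cpt := Pool.Agent.H66.CH.pf_CPT
  emb := Pool.Agent.H52.CH.pf_EMB
  olg := Pool.Agent.H36.CH.pf_OLG
  cyc := Pool.Agent.H99.CHL.pf_CYC Pool.Agent.H59.CH.pf_GLU
  pth := Pool.Agent.H51.CH.pf_PTH
  fre := Pool.Agent.H17.CH.pf_FRE
  npt := Pool.Agent.H46.CH2.pf_NPT
  zzn := Pool.Agent.H99.CHL.pf_ZZN
  cnp := Pool.Agent.H52.CH.CNP.pf_CNP
  rmx := Pool.Agent.H52.CH.RMX.pf_RMX
  epc := Pool.Agent.H34.CH.pf_EPC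
  rgd := Pool.Agent.H36.CH.pf_RGD
  rge := Pool.Agent.H73.CH.pf_RGE
  nqc := Pool.Agent.H52.CH.NQC.pf_NQC
  fnc := Pool.Agent.H1.CHL.pf_FNC

theorem a_RB : RB where
  rgi := Pool.Agent.H66.CH.pf_RGI
  kmn := Pool.Agent.H51.CH.KMN.pf_KMN
  kst := Pool.Agent.H66.CH.pf_KST
  stp := Pool.Agent.H11.CH.pf_STP
  dic := Pool.Agent.H67.CH.pf_DIC
  one := Pool.Agent.H34.CH.pf_ONE
  ols := Pool.Agent.H17.CH.pf_OLS
  kfn := Pool.Agent.H34.CH.pf_KFN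
  dbe := Pool.Agent.H59.CH.pf_DBE
  gln := Pool.Agent.H65.CHN.pf_GLN
  ppb := Pool.Agent.H59.CH.pf_PPB
  ppn := Pool.Agent.H74.CH.pf_PPN
  sba := Pool.Agent.H4.CH.SBA.pf_SBA
  sbh := Pool.Agent.H1.CHL.pf_SBH
  sbe := Pool.Agent.H1.CHL.pf_SBE
  sb1 := Pool.Agent.H36.CH.pf_SB1
  fbd := Pool.Agent.H36.CH.pf_FBD

theorem a_LNK : T_LNK := by
  intro V N ρ σ δ 𝔹 m lv 𝔸 𝔻 st β hT ht hn hX
  obtain ⟨L₀, hP⟩ := hT.pth
  exact Pool.Agent.H49.CL.links hT.hv hT.nm ht hn hX hT.cpt hT.emb hT.aml hT.lve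
    ⟨L₀, hP L₀ le_rfl⟩ hT.rlc hT.nex hT.rmv
    (Pool.Agent.H44.FB.pf_EMB N δ 𝔻 hT.nm.hb hT.nm.cnt (Pool.Agent.H94.FB.pf_CPT N δ 𝔻 hT.nm.hb))
    hT.zzc

/-- The Bodirsky–Pinsker conjecture for the reducts of homogeneous structures with relative local
completions with respect to a chain of equivalence relations. -/
theorem chains {V : Type} {ρ σ : Sig} {𝔹 : Str ρ V} {m : ℕ} {lv : V → V → ℕ} {𝔸 : Str σ V}
    (hV : HV 𝔹 m lv) (ht : Tyi 𝔸 𝔹) :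
    PPConstructsK3 𝔸 ∨ ∃ (σ' : Sig) (Y : Type) (_ : Finite Y) (𝕋 : Str σ' Y),
      ¬ PPConstructsK3 𝕋 ∧ N793a5b8e.ManyOneReducible (CSP 𝔸) (CSP 𝕋) :=
  main a_RA a_RB a_LNK Pool.Agent.H57.CN.rows_all m V ρ σ 𝔹 lv 𝔸 hV ht

end Pool.Agent.H72.CH
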