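import Pool.Agent.H72.CH.Targets2
import Pool.Agent.H57.CS.All
import Pool.Agent.H57.CN.Asm

/-!
# Chains of equivalence relations: the assembly
-/

set_option autoImplicit false
set_option linter.unusedVariables false

namespace Pool.Agent.H72.CH

open Pool.Agent.H68.BP Pool.Agent.H58.SF Pool.Agent.H53.NR
open Pool.Agent.H57.AR (tp ty Ty HomEq)
open Pool.Agent.H57.EQ (Cx)
open Pool.Agent.H57.LH (Hmg RmV SS)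
open Pool.Agent.H44.KR (HB Amg Tyi TpOn Rz LcN)
open Pool.Agent.H44.FB (CptC EmbC fbI LocP Bl)
open Pool.Agent.H57.CN (KH Lim)
open Function

/-- the rows of parts 0, 2 and 4 -/
structure RA : Prop where
  rln : T_RLN
  exa : T_EXA
  lve : T_LVE
  exf : T_EXF
  nex : T_NEX
  aml : T_AML
  cpt : T_CPT
  emb : T_EMB
  olg : T_OLG
  cyc : T_CYC
  pth : T_PTH
  fre : T_FRE
  npt : T_NPT
  zzn : T_ZZN
  cnp : T_CNP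
  rmx : T_RMX
  epc : T_EPC
  rgd : T_RGD
  rge : T_RGE
  nqc : T_NQC
  fnc : T_FNC

/-- the rows of parts 5 and 6 and of the induction -/
structure RB : Prop where
  rgi : T_RGI
  kmn : T_KMN
  kst : T_KST
  stp : T_STP
  dic : T_DIC
  one : T_ONE
  ols : T_OLS
  kfn : T_KFN
  dbe : T_DBE
  gln : T_GLN
  ppb : T_PPB
  ppn : T_PPN
  sba : T_SBA
  sbh : T_SBH
  sbe : T_SBE
  sb1 : T_SB1
  fbd : T_FBD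

/-- everything known about the structure with names -/
structure Tls {V N : Type} {ρ δ : Sig} (𝔹 : Str ρ V) (m : ℕ) (lv : V → V → ℕ) (𝔻 : Str δ N)
    (st : N → Fin m) (β : (Fin m → N) → V) : Prop where
  hv : HV 𝔹 m lv
  nm : Nm 𝔹 m lv 𝔻 st β
  rlc : ∃ N, RlcN 𝔹 m lv N
  exa : ExaC 𝔹 m lv
  exf : ExfC 𝔹 m lv
  nex : NexC 𝔹 m lv st β
  aml : AmlC 𝔹 lv
  cpt : CptC 𝔹
  emb : EmbC 𝔹
  lve : LveC m lv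
  pth : ∃ L₀, ∀ L, L₀ ≤ L → PthC 𝔹 lv L
  lcn : ∃ K, LcN 𝔻 K
  rmv : RmV 𝔻
  zzc : ZzC 𝔻 st
  cnc : CnC 𝔻 st

/-- the links -/
def T_LNK : Prop := ∀ (V N : Type) (ρ σ δ : Sig) (𝔹 : Str ρ V) (m : ℕ) (lv : V → V → ℕ)
  (𝔸 : Str σ V) (𝔻 : Str δ N) (st : N → Fin m) (β : (Fin m → N) → V), Tls 𝔹 m lv 𝔻 st β →
    Tyi 𝔸 𝔹 → NcL 𝔸 m lv → RamX 𝔸 𝔹 lv → UEC 𝔸 lv

section

variable {V N : Type} {ρ σ δ : Sig} {𝔹 : Str ρ V} {m : ℕ} {lv : V → V → ℕ} {𝔸 : Str σ V}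
  {𝔻 : Str δ N} {st : N → Fin m} {β : (Fin m → N) → V}

theorem tls_of (hA : RA) (hV : HV 𝔹 m lv) (hN : Nm 𝔹 m lv 𝔻 st β) : Tls 𝔹 m lv 𝔻 st β := by
  have h1 := hA.rln V ρ 𝔹 m lv hV
  have h2 := hA.exa V ρ 𝔹 m lv hV h1
  have h3 := hA.exf V ρ 𝔹 m lv hV h2
  have h4 := hA.cpt V ρ 𝔹 m lv hV
  have h5 : ∃ K, LcN 𝔻 K := Pool.Agent.H56.KR.pf_LCS N δ 𝔻 hN.hb
  have h6 : RmV 𝔻 := Pool.Agent.H57.LH.rmv_of Pool.Agent.H44.KR.a_P1 Pool.Agent.H57.LH.a_LR hN.hb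
  have h7 : ZzC 𝔻 st := by
    obtain ⟨K, hK⟩ := h5
    exact hA.zzn N δ 𝔻 m st hN.cnt
      ⟨K + 1, hA.npt N δ 𝔻 m st hA.fre hN.hb hN.srt hN.flg K hK (K + 1) (Nat.lt_succ_self K)⟩
  exact ⟨hV, hN, h1, h2, h3, hA.nex V N ρ δ 𝔹 m lv 𝔻 st β hN h3, hA.aml V ρ 𝔹 m lv hV h2, h4,
    hA.emb V ρ 𝔹 m lv hV h4, hA.lve V ρ 𝔹 m lv hV h2, hA.pth V ρ 𝔹 m lv hA.cyc hV h1, h5, h6, h7,
    hA.cnp N δ 𝔻 m st hN.hb.ne h6 h7⟩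

/-- the case in which no level can be avoided -/
theorem main_nc (hA : RA) (hB : RB) (hL : T_LNK) (hT : Tls 𝔹 m lv 𝔻 st β) (hm : 1 ≤ m)
    (hbl : ∀ (σ : Sig) (𝔸 : Str σ V), Bl (NmS 𝔸 st β) 𝔻 = ∅) (ht : Tyi 𝔸 𝔹)
    (hn : NcL 𝔸 m lv) (hK : ¬ PPConstructsK3 𝔸) :
    ∃ (σ' : Sig) (Y : Type) (_ : Finite Y) (𝕋 : Str σ' Y),
      ¬ PPConstructsK3 𝕋 ∧ N793a5b8e.ManyOneReducible (CSP 𝔸) (CSP 𝕋) := by
  obtain ⟨L₀, hP⟩ := hT.pth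
  have hX : RamX 𝔸 𝔹 lv := hA.rmx V N ρ σ δ 𝔹 m lv 𝔸 𝔻 st β hT.hv ht hT.nm hT.nex hT.cnc hn
  have hU : UEC 𝔸 lv := hL V N ρ σ δ 𝔹 m lv 𝔸 𝔻 st β hT ht hn hX
  have hE : EPC 𝔸 lv := hA.epc V ρ σ 𝔹 m lv 𝔸 hT.hv ht hT.emb hT.lve ⟨L₀, hP L₀ le_rfl⟩ hU
  have hR : RgE 𝔸 lv := hA.rge V ρ σ 𝔹 m lv 𝔸 hT.hv ht hT.cpt hT.emb hX
    (hA.rgd V ρ σ 𝔹 m lv 𝔸 hT.hv ht hT.cpt hT.emb)
  have hQ : NqC 𝔸 m lv := hA.nqc V ρ σ 𝔹 m lv 𝔸 hT.hv ht hT.emb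
    ⟨L₀ + 1, Nat.le_add_left 1 L₀, hP _ (Nat.le_succ L₀)⟩ hE
  have hO : Oligo 𝔸 := hA.olg V ρ σ 𝔹 m lv 𝔸 hT.hv ht
  have hI : InjL 𝔸 lv := by
    by_contra hcon
    obtain ⟨i, j, a, b, c, a', c', d, hk⟩ := hB.kmn V ρ σ 𝔹 m lv 𝔸 hT.hv hE hQ hR hcon
    have h1 := hB.kst V ρ σ 𝔹 m lv 𝔸 ht hT.emb i j a b c a' c' d hk
    have h2 := hB.stp V ρ σ 𝔹 m lv 𝔸 hB.rgi hT.hv ht hT.emb hQ i j a b c a' c' d hk h1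
    have h3 := hB.dic V ρ σ 𝔹 m lv 𝔸 hB.rgi hT.hv ht hT.emb ⟨L₀, hP L₀ le_rfl⟩
      i j a b c a' c' d hk h2
    have h4 := hB.one V ρ σ 𝔹 m lv 𝔸 hB.rgi hT.hv ht hT.emb hQ i j a b c a' c' d hk h3
    have h5 := hB.ols V ρ σ 𝔹 m lv 𝔸 hT.hv ht hT.cpt hO hK
    exact hB.kfn V ρ σ 𝔹 m lv 𝔸 hT.hv hQ i j a b c a' c' d hk h4 h5
  refine Pool.Agent.H57.CS.chains_main hT.hv hm hT.nm ht hI ?_
  intro M _
  rw [hbl σ 𝔸]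
  exact hB.ppn hB.gln hB.ppb hB.dbe V N ρ σ δ 𝔹 m lv 𝔸 𝔻 st β hT.hv ht hT.nm hT.nex
    (hA.fnc V ρ σ 𝔹 m lv 𝔸 hT.hv ht hT.cpt hE hQ) hR hK M

end

theorem mor_refl (A : N68a2faeb.DecisionProblem) : N793a5b8e.ManyOneReducible A A :=
  ⟨id, N68a2faeb.isPolyTime_id, fun _ => rfl⟩

theorem oligo_unit {σ : Sig} (𝔸 : Str σ Unit) : Oligo 𝔸 := by
  intro n
  exact ⟨{fun _ => ()}, fun x => ⟨fun _ => (), Finset.mem_singleton_self _, Equiv.refl _,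
    fun l z => Iff.rfl, fun i => rfl⟩⟩

/-- The theorem, by induction on the number of levels. -/
theorem main (hA : RA) (hB : RB) (hL : T_LNK) (hC : Pool.Agent.H57.CN.Rows) : ∀ (m : ℕ)
    (V : Type) (ρ σ : Sig) (𝔹 : Str ρ V) (lv : V → V → ℕ) (𝔸 : Str σ V), HV 𝔹 m lv → Tyi 𝔸 𝔹 →
    PPConstructsK3 𝔸 ∨ ∃ (σ' : Sig) (Y : Type) (_ : Finite Y) (𝕋 : Str σ' Y),
      ¬ PPConstructsK3 𝕋 ∧ N793a5b8e.ManyOneReducible (CSP 𝔸) (CSP 𝕋) := by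
  intro m
  induction m with
  | zero =>
    intro V ρ σ 𝔹 lv 𝔸 hV ht
    by_cases hK : PPConstructsK3 𝔸
    · exact Or.inl hK
    have hs : Subsingleton V := ⟨fun x y => hV.lev.eq x y (Nat.le_zero.1 (hV.lev.pl.le x y))⟩
    exact Or.inr ⟨σ, V, inferInstance, 𝔸, hK, mor_refl _⟩
  | succ m ih =>
    intro V ρ σ 𝔹 lv 𝔸 hV ht
    by_cases hK : PPConstructsK3 𝔸
    · exact Or.inl hK
    by_cases hn : NcL 𝔸 (m + 1) lv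
    · obtain ⟨δ, 𝔻, st, β, hN, hbl⟩ := Pool.Agent.H57.CN.nm_exists hC hV (Nat.succ_pos m)
      exact Or.inr (main_nc hA hB hL (tls_of hA hV hN) (Nat.succ_pos m) hbl ht hn hK)
    · unfold NcL at hn
      push Not at hn
      obtain ⟨j, hj, hav⟩ := hn
      have hav' : AvL 𝔸 lv j := hav
      rcases Nat.eq_zero_or_pos m with h0 | h0
      · subst h0
        have hj0 : j = 0 := by omega
        subst hj0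
        obtain ⟨𝔸', hE⟩ := hB.sb1 V ρ σ 𝔹 lv 𝔸 hV ht hav'
        have hO := hA.olg V ρ σ 𝔹 _ lv 𝔸 hV ht
        refine Or.inr ⟨σ, Unit, inferInstance, 𝔸', fun h => hK
          (Pool.Agent.H13.LH.pf_KHE V Unit σ 𝔸 𝔸' hV.cnt inferInstance hV.ne inferInstance hO
            (oligo_unit 𝔸') hE h), ?_⟩
        rw [Pool.Agent.H50.SO.csp_congr (𝔸' := 𝔸') hE]
        exact mor_refl _
      · have h1 := hA.exa V ρ 𝔹 _ lv hV (hA.rln V ρ 𝔹 _ lv hV)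
        have hKH := hB.sba V ρ 𝔹 m lv j hV h1 h0 (by omega)
        obtain ⟨𝔹', hLim⟩ := hC.fra _ _ hKH
        have hAm := hC.amd _ _ 𝔹' hKH hLim
        obtain ⟨lv', hV', -⟩ := hB.sbh V ρ 𝔹 m lv j 𝔹' hV h0 (by omega) hKH hLim hAm
        obtain ⟨𝔸', ht', hE⟩ := hB.sbe V ρ σ 𝔹 m lv 𝔸 j 𝔹' hV ht (by omega) hLim hav'
        have hO := hA.olg V ρ σ 𝔹 _ lv 𝔸 hV ht
        have hO' := hA.olg ℕ ρ σ 𝔹' _ lv' 𝔸' hV' ht'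
        rcases ih ℕ ρ σ 𝔹' lv' 𝔸' hV' ht' with h | h
        · exact absurd (Pool.Agent.H13.LH.pf_KHE V ℕ σ 𝔸 𝔸' hV.cnt hV'.cnt hV.ne hV'.ne hO hO'
            hE h) hK
        · refine Or.inr ?_
          rw [Pool.Agent.H50.SO.csp_congr (𝔸' := 𝔸') hE]
          exact h

end Pool.Agent.H72.CH
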