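import Pool.Agent.H57.LH.Defs
import Pool.Agent.H44.FB.Defs

/-!
# Chains of equivalence relations: definitions

`(V, 𝔹)` is a homogeneous structure with a chain of invariant equivalence relations, given by the
level function `lv`: the elements `x`, `y` are equivalent for the `j`-th relation if and only if
`j ≤ lv x y`; the relation with the number `0` is the full relation, and the one with the number `m`
is the equality.
-/

set_option autoImplicit false
set_option linter.unusedVariables false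

namespace Pool.Agent.H72.CH

open Pool.Agent.H68.BP Pool.Agent.H58.SF Pool.Agent.H53.NR
open Pool.Agent.H57.LCI (Pre Realizes)
open Pool.Agent.H57.AR (tp ty Ty)
open Pool.Agent.H57.EQ (Cx)
open Pool.Agent.H57.LH (Hmg)
open Pool.Agent.H44.KR (HB Tyi TpOn)
open Pool.Agent.H44.FB (CptC EmbC)
open Function

/-! ### Levels -/

section levels

variable {V X : Type} {ρ σ : Sig}

/-- a chain of equivalence relations on `X`, given by its level function -/
structure PLev (m : ℕ) (lam : X → X → ℕ) : Prop where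
  le : ∀ x y, lam x y ≤ m
  self : ∀ x, lam x x = m
  sym : ∀ x y, lam x y = lam y x
  ult : ∀ x y z, min (lam x y) (lam y z) ≤ lam x z

/-- The last equivalence relation is the equality. -/
structure Lev (m : ℕ) (lv : V → V → ℕ) : Prop where
  pl : PLev m lv
  eq : ∀ x y, lv x y = m → x = y

/-- The map `f` realizes the prescription `p`, and the chains agree on its tuple. -/
def RlE (𝔹 : Str ρ V) (lv : V → V → ℕ) (lam : X → X → ℕ) (f : X → V) (p : Pre ρ X) : Prop :=
  Realizes 𝔹 f p ∧ ∀ a b, lv (f (p.2.1 a)) (f (p.2.1 b)) = lam (p.2.1 a) (p.2.1 b)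

/-- Local completions relative to a chain of equivalence relations: for every `r` there is `M` such
that for every finite set with a chain of equivalence relations and every set `P` of prescriptions on
tuples of length at most `r`: if for each set `U` of at most `M` elements there is a map to `𝔹` which
maps equivalent elements of `U` to equivalent elements and realizes the prescriptions on the tuples
with entries in `U`, then there is a map which realizes all prescriptions and maps inequivalent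
elements to inequivalent elements, too. -/
def RelLC (𝔹 : Str ρ V) (m : ℕ) (lv : V → V → ℕ) : Prop :=
  ∀ r : ℕ, ∃ M : ℕ, ∀ (n : ℕ) (lam : Fin n → Fin n → ℕ) (P : Set (Pre ρ (Fin n))), PLev m lam →
    (∀ p ∈ P, p.1 ≤ r) →
    (∀ U : Finset (Fin n), U.card ≤ M → ∃ f : Fin n → V,
      (∀ x ∈ U, ∀ y ∈ U, lam x y ≤ lv (f x) (f y)) ∧
      ∀ p ∈ P, (∀ i, p.2.1 i ∈ U) → RlE 𝔹 lv lam f p) →
    ∃ f : Fin n → V, (∀ x y, lv (f x) (f y) = lam x y) ∧ ∀ p ∈ P, Realizes 𝔹 f p

/-- the hypotheses on the structure with levels -/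
structure HV (𝔹 : Str ρ V) (m : ℕ) (lv : V → V → ℕ) : Prop where
  ne : Nonempty V
  cnt : Countable V
  ar : ∀ l, 1 ≤ ρ.ar l
  lev : Lev m lv
  inv : ∀ x y : Fin 2 → V, tp 𝔹 x = tp 𝔹 y → lv (x 0) (x 1) = lv (y 0) (y 1)
  one : ∀ x y : V, ty 𝔹 x = ty 𝔹 y
  hmg : Hmg 𝔹
  rlc : RelLC 𝔹 m lv

/-- The level `j` cannot be avoided by unary maps, for all `j < m`. -/
def NcL (𝔸 : Str σ V) (m : ℕ) (lv : V → V → ℕ) : Prop :=
  ∀ j < m, ∃ (n : ℕ) (G : Fin n → V), ∀ ψ : Fin n → V, Cx 𝔸 (fun _ : Unit => G) ψ →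
    ∃ a b, lv (ψ a) (ψ b) = j

/-- Each finite structure has copies in a finite set, for each unary map on this set one of them,
on which the map preserves the levels. -/
def RamX (𝔸 : Str σ V) (𝔹 : Str ρ V) (lv : V → V → ℕ) : Prop :=
  ∀ (n : ℕ) (x : Fin n → V), ∃ (k : ℕ) (y : Fin k → V), ∀ ψ : Fin k → V,
    Cx 𝔸 (fun _ : Unit => y) ψ → ∃ φ : Fin n → Fin k, tp 𝔹 (fun a => y (φ a)) = tp 𝔹 x ∧
      ∀ a b, lv (ψ (φ a)) (ψ (φ b)) = lv (x a) (x b)

/-- Endomorphisms preserve the equivalence relations. -/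
def UEC (𝔸 : Str σ V) (lv : V → V → ℕ) : Prop :=
  ∀ g : V → V, IsHom 𝔸 𝔸 g → ∀ x y, lv x y ≤ lv (g x) (g y)

/-- Polymorphisms preserve the equivalence relations. -/
def EPC (𝔸 : Str σ V) (lv : V → V → ℕ) : Prop :=
  ∀ (P : Type) [Finite P] [Nonempty P] (f : (P → V) → V), IsPoly 𝔸 𝔸 f →
    ∀ (j : ℕ) (x y : P → V), (∀ p, j ≤ lv (x p) (y p)) → j ≤ lv (f x) (f y)

/-- The pair `(x, y)` is rigid: it comes back after each endomorphism. -/
def Rgd (𝔸 : Str σ V) (x y : V) : Prop :=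
  ∀ g, IsHom 𝔸 𝔸 g → ∃ g', IsHom 𝔸 𝔸 g' ∧ g' (g x) = x ∧ g' (g y) = y

/-- Polymorphisms keep the levels of tuples whose entries are rigid pairs of one level. -/
def NqC (𝔸 : Str σ V) (m : ℕ) (lv : V → V → ℕ) : Prop :=
  ∀ (P : Type) [Finite P] [Nonempty P] (f : (P → V) → V), IsPoly 𝔸 𝔸 f →
    ∀ l < m, ∀ x y : P → V, (∀ p, lv (x p) (y p) = l ∧ Rgd 𝔸 (x p) (y p)) → lv (f x) (f y) = l

/-- There is an endomorphism which preserves the levels, and maps all pairs to rigid pairs. -/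
def RgE (𝔸 : Str σ V) (lv : V → V → ℕ) : Prop :=
  ∃ e : V → V, IsHom 𝔸 𝔸 e ∧ (∀ x y, lv (e x) (e y) = lv x y) ∧ ∀ x y, Rgd 𝔸 (e x) (e y)

/-- paths with given types: `T k` are pairs of level `τ`, and `S k` pairs of level `ς` -/
def PthC (𝔹 : Str ρ V) (lv : V → V → ℕ) (L : ℕ) : Prop :=
  ∀ (τ ς : ℕ) (T S : Fin L → Fin 2 → V) (u : Fin 2 → V),
    (∀ k, lv (T k 0) (T k 1) = τ) → (∀ k, lv (S k 0) (S k 1) = ς) →
    min τ ς ≤ lv (u 0) (u 1) →
    ∃ (x : Fin (L + 1) → V) (v : Fin L → V), x 0 = u 0 ∧ x (Fin.last L) = u 1 ∧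
      ∀ k : Fin L, tp 𝔹 ![x k.castSucc, v k] = tp 𝔹 (T k) ∧
        tp 𝔹 ![x k.succ, v k] = tp 𝔹 (S k)

/-- Binary polymorphisms with the intersection of the kernels, for all levels. -/
def InjL (𝔸 : Str σ V) (lv : V → V → ℕ) : Prop :=
  ∀ (W : Type) [Finite W] (G : Fin 2 → W → V), ∃ ψ : W → V, Cx 𝔸 G ψ ∧
    ∀ u w, lv (ψ u) (ψ w) = min (lv (G 0 u) (G 0 w)) (lv (G 1 u) (G 1 w))

end levels

/-! ### Names -/

section names

variable {V N W : Type} {ρ σ δ : Sig} {m : ℕ}

/-- the flags over the set `W` of names with the sorts `s` -/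
abbrev Fl (s : W → Fin m) : Type := {u : Fin m → W // ∀ i, s (u i) = i}

/-- `w` and `w'` agree in the first `j` names -/
def Agr (j : ℕ) (w w' : Fin m → W) : Prop := ∀ i : Fin m, (i : ℕ) < j → w i = w' i

/-- The names structure: `st` gives the sorts of the names, and `β` the element with a given
flag. -/
structure Nm (𝔹 : Str ρ V) (m : ℕ) (lv : V → V → ℕ) (𝔻 : Str δ N) (st : N → Fin m)
    (β : (Fin m → N) → V) : Prop where
  hb : HB 𝔻
  cnt : Countable N
  srt : ∀ p q : N, ty 𝔻 p = ty 𝔻 q ↔ st p = st q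
  flg : ∀ w w' : Fl st, tp 𝔻 w.1 = tp 𝔻 w'.1
  lev : ∀ w w' : Fl st, ∀ j ≤ m, j ≤ lv (β w.1) (β w'.1) ↔ Agr j w.1 w'.1
  inv : ∀ (J : Type) (x y : J → N), tp 𝔻 x = tp 𝔻 y → ∀ (K : Type) (w : K → Fin m → J),
    (∀ k i, st (x (w k i)) = i) →
    tp 𝔹 (fun k => β (fun i => x (w k i))) = tp 𝔹 (fun k => β (fun i => y (w k i)))
  uni : ∀ (J : Type) [Finite J] (s : J → Fin m) (g : Fl s → V),
    (∀ w w' : Fl s, ∀ j ≤ m, j ≤ lv (g w) (g w') ↔ Agr j w.1 w'.1) →
    ∃ x : J → N, Injective x ∧ (∀ a, st (x a) = s a) ∧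
      tp 𝔹 (fun w : Fl s => β (fun i => x (w.1 i))) = tp 𝔹 g

/-- the relations of `𝔸` on the flags, as relations of the names -/
def sigN (σ : Sig) (m : ℕ) : Sig := ⟨σ.m, fun l => σ.ar l * m⟩

/-- the structure on the names -/
def NmS (𝔸 : Str σ V) (st : N → Fin m) (β : (Fin m → N) → V) : Str (sigN σ m) N :=
  fun l z => (∀ q : Fin (σ.ar l) × Fin m, st (z (finProdFinEquiv q)) = q.2) ∧
    𝔸 l (fun a => β (fun i => z (finProdFinEquiv (a, i))))

end names

end Pool.Agent.H72.CH
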