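import Pool.Agent.H72.CH.All
import Pool.Agent.H20.CH3.ZRC
import Pool.Agent.H57.CM.All

/-!
# Chains of equivalence relations: the theorem for homogeneous structures and Urysohn spaces
-/

set_option autoImplicit false
set_option linter.unusedVariables false

namespace Pool.Agent.H72.CH

open Pool.Agent.H68.BP Pool.Agent.H58.SF Pool.Agent.H53.NR
open Pool.Agent.H57.AR (tp ty Ty)
open Pool.Agent.H57.LH (Hmg)
open Pool.Agent.H44.KR (HB Amg Tyi TpOn Rz LcN)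
open Function

/-- equal types give automorphisms -/
theorem aut_of_tp {W V : Type} [Finite W] {ρ : Sig} {𝔹 : Str ρ V} (hH : Homogeneous 𝔹)
    {x y : W → V} (h : tp 𝔹 y = tp 𝔹 x) : ∃ g : V ≃ V, IsAut 𝔹 g ∧ ∀ w, g (x w) = y w := by
  obtain ⟨n, ⟨e⟩⟩ := Finite.exists_equiv_fin W
  have h3 : Pool.Agent.H18.SF.ty 𝔹 (fun i => y (e.symm i)) =
      Pool.Agent.H18.SF.ty 𝔹 (fun i => x (e.symm i)) := by
    refine Prod.ext (funext fun a => funext fun b => ?_)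
      (funext fun l => funext fun z => ?_)
    · exact congrFun (congrFun (congrArg Prod.fst h) (e.symm a)) (e.symm b)
    · exact congrFun (congrFun (congrArg Prod.snd h) l) (fun i => e.symm (z i))
  obtain ⟨g, hg, hg'⟩ := Pool.Agent.H18.SF.exists_aut_of_ty hH _ _ h3
  refine ⟨g, hg, fun w => ?_⟩
  have h4 := hg' (e w)
  simpa only [Equiv.symm_apply_apply] using h4

theorem tyi_of_aut {V : Type} {ρ σ : Sig} {𝔹 : Str ρ V} {𝔸 : Str σ V} (hH : Homogeneous 𝔹)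
    (h : ∀ g : V ≃ V, IsAut 𝔹 g → IsAut 𝔸 g) : Tyi 𝔸 𝔹 := by
  intro l x y hx hxy
  obtain ⟨g, hg, hg'⟩ := aut_of_tp hH hxy
  have h1 := (h g hg l x).1 hx
  have h2 : (fun i => g (x i)) = y := funext hg'
  rwa [h2] at h1

theorem inv_of_aut {V : Type} {ρ : Sig} {𝔹 : Str ρ V} {lv : V → V → ℕ} (hH : Homogeneous 𝔹)
    (hi : ∀ g : V ≃ V, IsAut 𝔹 g → ∀ x y, lv (g x) (g y) = lv x y) (x y : Fin 2 → V)
    (h : tp 𝔹 x = tp 𝔹 y) : lv (x 0) (x 1) = lv (y 0) (y 1) := by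
  obtain ⟨g, hg, hg'⟩ := aut_of_tp hH h
  rw [← hg' 0, ← hg' 1]
  exact hi g hg _ _

/-- the hypotheses of the theorem, for homogeneous transitive structures -/
theorem hv_of_hom {V : Type} [Countable V] [Nonempty V] {ρ : Sig} {𝔹 : Str ρ V}
    (har : ∀ l, 1 ≤ ρ.ar l) (hH : Homogeneous 𝔹)
    (hT : ∀ x y : V, ∃ g : V ≃ V, IsAut 𝔹 g ∧ g x = y) {m : ℕ} {lv : V → V → ℕ}
    (hL : Lev m lv) (hi : ∀ g : V ≃ V, IsAut 𝔹 g → ∀ x y, lv (g x) (g y) = lv x y)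
    (hR : RelLC 𝔹 m lv) : HV 𝔹 m lv := by
  refine ⟨‹_›, ‹_›, har, hL, inv_of_aut hH hi, fun x y => ?_, Pool.Agent.H57.LH.pf_HMG V ρ 𝔹 hH,
    hR⟩
  obtain ⟨g, hg, rfl⟩ := hT x y
  funext l
  exact propext (hg l fun _ => x)

/-- the theorem for homogeneous structures -/
theorem chains_hom {V : Type} [Countable V] [Nonempty V] {ρ σ : Sig} {𝔹 : Str ρ V}
    {𝔸 : Str σ V} (hH : Homogeneous 𝔹) (hT : ∀ x y : V, ∃ g : V ≃ V, IsAut 𝔹 g ∧ g x = y)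
    (hC : ChainCompletions 𝔹) (hA : ∀ g : V ≃ V, IsAut 𝔹 g → IsAut 𝔸 g) :
    PPConstructsK3 𝔸 ∨ ∃ (σ' : Sig) (Y : Type) (_ : Finite Y) (𝕋 : Str σ' Y),
      ¬ PPConstructsK3 𝕋 ∧ N793a5b8e.ManyOneReducible (CSP 𝔸) (CSP 𝕋) := by
  obtain ⟨m, lv, hL, hi, hR⟩ := hC
  obtain ⟨ρ', 𝔹', har, hH', hR', hg⟩ := Pool.Agent.H20.CH3.pf_ZRC V ρ 𝔹 m lv ‹_› hH hR
  refine chains (𝔹 := 𝔹') (hv_of_hom har hH' (fun x y => ?_) hL
    (fun g h => hi g ((hg g).1 h)) hR') (tyi_of_aut hH' fun g h => hA g ((hg g).1 h))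
  obtain ⟨g, h1, h2⟩ := hT x y
  exact ⟨g, (hg g).2 h1, h2⟩

/-- homogeneous structures with chain completions are finitely bounded -/
theorem fb_hom {V : Type} [Nonempty V] {ρ : Sig} {𝔹 : Str ρ V} (hF : T_FB0)
    (hH : Homogeneous 𝔹) (hC : ChainCompletions 𝔹) : FinitelyBounded 𝔹 := by
  obtain ⟨m, lv, hL, hi, hR⟩ := hC
  exact hF V ρ 𝔹 m lv ‹_› hL (inv_of_aut hH hi) hR

theorem strOn_aut {S : Type} {Ar : S → Type} [Finite S] [∀ s, Finite (Ar s)] {Y : Type}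
    {R : (s : S) → (Ar s → Y) → Prop} {g : Y ≃ Y}
    (hg : IsAut (Pool.Agent.H53.GC.strOn R) g) (s : S) (z : Ar s → Y) :
    R s z ↔ R s (fun p => g (z p)) := by
  obtain ⟨l, rfl⟩ : ∃ l, (Finite.equivFin S).symm l = s := ⟨Finite.equivFin S s, by simp⟩
  have h := hg l (fun q => z ((Finite.equivFin (Ar ((Finite.equivFin S).symm l))).symm q))
  have h1 : ∀ (x : Fin ((Pool.Agent.H53.GC.sigOf S Ar).ar l) → Y),
      Pool.Agent.H53.GC.strOn R l x ↔ R ((Finite.equivFin S).symm l)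
        (fun p => x (Finite.equivFin (Ar ((Finite.equivFin S).symm l)) p)) := fun x => Iff.rfl
  rw [h1, h1] at h
  simpa only [Equiv.symm_apply_apply] using h

/-- the theorem for Urysohn spaces with finitely many distances -/
theorem chains_ury {V : Type} [Countable V] {σ : Sig} {𝔸 : Str σ V} {S : Finset ℝ}
    {d : V → V → ℝ} (hU : Pool.Agent.H57.CM.UryR S d)
    (hA : ∀ g : V ≃ V, (∀ x y, d (g x) (g y) = d x y) → IsAut 𝔸 g) :
    (∃ (τ : Sig) (𝔹 : Str τ V), Homogeneous 𝔹 ∧ FinitelyBounded 𝔹 ∧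
      ∀ g, IsAut 𝔹 g → IsAut 𝔸 g) ∧
    (PPConstructsK3 𝔸 ∨ ∃ (σ' : Sig) (Y : Type) (_ : Finite Y) (𝕋 : Str σ' Y),
      ¬ PPConstructsK3 𝕋 ∧ N793a5b8e.ManyOneReducible (CSP 𝔸) (CSP 𝕋)) := by
  obtain ⟨m, lv, hV⟩ := Pool.Agent.H57.CM.ex_real V S d hU
  have hH : Homogeneous (Pool.Agent.H57.CM.rst S d) :=
    Pool.Agent.H96.LH.pf_HHG V _ _ hV.cnt hV.hmg
  have hA' : ∀ g, IsAut (Pool.Agent.H57.CM.rst S d) g → IsAut 𝔸 g := by
    intro g hg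
    refine hA g fun x y => ?_
    have h1 := (strOn_aut hg ⟨d x y, hU.val x y⟩ ![x, y]).1 rfl
    exact h1
  exact ⟨⟨_, _, hH, Pool.Agent.H36.CH.pf_FBD V _ _ m lv hV, hA'⟩,
    chains hV (tyi_of_aut hH hA')⟩

end Pool.Agent.H72.CH
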