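import Pool.Agent.H72.CH.Defs
import Pool.Agent.H44.KR.Targets

/-!
# Chains of equivalence relations: targets, parts 0, 2 and 4
-/

set_option autoImplicit false
set_option linter.unusedVariables false

namespace Pool.Agent.H72.CH

open Pool.Agent.H68.BP Pool.Agent.H58.SF Pool.Agent.H53.NR
open Pool.Agent.H57.LCI (Pre Realizes)
open Pool.Agent.H57.AR (tp ty Ty HomEq)
open Pool.Agent.H57.EQ (Cx)
open Pool.Agent.H57.LH (Hmg RmV)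
open Pool.Agent.H44.KR (HB Amg Tyi TpOn Rz LcN)
open Pool.Agent.H44.FB (CptC EmbC)
open Function

/-! ### Part 0: tools -/

section tools

variable {V N : Type} {ρ σ δ : Sig}

/-- relative local completions for families of labelled sets, with the bound `N` -/
def RlcN (𝔹 : Str ρ V) (m : ℕ) (lv : V → V → ℕ) (N : ℕ) : Prop :=
  ∀ (X : Type) [Finite X] (lam : X → X → ℕ) (Λ : Type) (s : Λ → Set X) (S : Λ → Str ρ X),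
    PLev m lam →
    (∀ U : Finset X, U.card ≤ N → ∃ f : X → V,
      (∀ x ∈ U, ∀ y ∈ U, lam x y ≤ lv (f x) (f y)) ∧
      ∀ a, (∀ x ∈ U, ∀ y ∈ U, x ∈ s a → y ∈ s a → lv (f x) (f y) = lam x y) ∧
        ∀ (l : Fin ρ.m) (z : Fin (ρ.ar l) → X), (∀ i, z i ∈ U ∧ z i ∈ s a) →
          (𝔹 l (fun i => f (z i)) ↔ S a l z)) →
    ∃ f : X → V, (∀ x y, lv (f x) (f y) = lam x y) ∧
      ∀ a (l : Fin ρ.m) (z : Fin (ρ.ar l) → X), (∀ i, z i ∈ s a) →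
        (𝔹 l (fun i => f (z i)) ↔ S a l z)

/-- A map which preserves the equivalences can be replaced by an exact map with the same types on
the sets on which it is exact. -/
def ExaC (𝔹 : Str ρ V) (m : ℕ) (lv : V → V → ℕ) : Prop :=
  ∀ (X : Type) [Finite X] (lam : X → X → ℕ) (Λ : Type) (C : Λ → Set X) (f : X → V), PLev m lam →
    (∀ x y, lam x y ≤ lv (f x) (f y)) →
    (∀ a, ∀ x ∈ C a, ∀ y ∈ C a, lv (f x) (f y) = lam x y) →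
    ∃ g : X → V, (∀ x y, lv (g x) (g y) = lam x y) ∧ ∀ a, TpOn 𝔹 (C a) f g

/-- The same for the flags over finitely many names; the map is given on the set `X` of flags. -/
def ExfC (𝔹 : Str ρ V) (m : ℕ) (lv : V → V → ℕ) : Prop :=
  ∀ (W : Type) [Finite W] (s : W → Fin m) (X : Set (Fl s)) (g : Fl s → V) (Λ : Type)
    (C : Λ → Set (Fl s)),
    (∀ w ∈ X, ∀ w' ∈ X, ∀ j ≤ m, Agr j w.1 w'.1 → j ≤ lv (g w) (g w')) →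
    (∀ a, C a ⊆ X) →
    (∀ a, ∀ w ∈ C a, ∀ w' ∈ C a, ∀ j ≤ m, j ≤ lv (g w) (g w') → Agr j w.1 w'.1) →
    ∃ g' : Fl s → V, (∀ w w' : Fl s, ∀ j ≤ m, (j ≤ lv (g' w) (g' w') ↔ Agr j w.1 w'.1)) ∧
      ∀ a, TpOn 𝔹 (C a) g g'

/-- The same in the names structure. -/
def NexC (𝔹 : Str ρ V) (m : ℕ) (lv : V → V → ℕ) (st : N → Fin m) (β : (Fin m → N) → V) : Prop :=
  ∀ (W : Type) [Finite W] (s : W → Fin m) (X : Set (Fl s)) (g : Fl s → V) (Λ : Type)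
    (C : Λ → Set (Fl s)),
    (∀ w ∈ X, ∀ w' ∈ X, ∀ j ≤ m, Agr j w.1 w'.1 → j ≤ lv (g w) (g w')) →
    (∀ a, C a ⊆ X) →
    (∀ a, ∀ w ∈ C a, ∀ w' ∈ C a, ∀ j ≤ m, j ≤ lv (g w) (g w') → Agr j w.1 w'.1) →
    ∃ x : W → N, Injective x ∧ (∀ a, st (x a) = s a) ∧
      ∀ a, TpOn 𝔹 (C a) g (fun w : Fl s => β (fun i => x (w.1 i)))

/-- Amalgamation: the new elements are equivalent to the elements of `F` only through the base. -/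
def AmlC (𝔹 : Str ρ V) (lv : V → V → ℕ) : Prop :=
  ∀ (W : Type) [Finite W] (A : Set W) (x y : W → V) (F : Finset V), TpOn 𝔹 A x y →
    ∃ x' : W → V, tp 𝔹 x' = tp 𝔹 x ∧ (∀ a ∈ A, x' a = y a) ∧
      ∀ w, ∀ v ∈ F, ∀ j, 1 ≤ j → j ≤ lv (x' w) v → ∃ a ∈ A, j ≤ lv (x w) (x a) ∧ j ≤ lv (y a) v

/-- All levels occur. -/
def LveC (m : ℕ) (lv : V → V → ℕ) : Prop := ∀ j ≤ m, ∃ x y, lv x y = j

end tools

def T_RLN : Prop := ∀ (V : Type) (ρ : Sig) (𝔹 : Str ρ V) (m : ℕ) (lv : V → V → ℕ),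
  HV 𝔹 m lv → ∃ N, RlcN 𝔹 m lv N

def T_EXA : Prop := ∀ (V : Type) (ρ : Sig) (𝔹 : Str ρ V) (m : ℕ) (lv : V → V → ℕ),
  HV 𝔹 m lv → (∃ N, RlcN 𝔹 m lv N) → ExaC 𝔹 m lv

def T_LVE : Prop := ∀ (V : Type) (ρ : Sig) (𝔹 : Str ρ V) (m : ℕ) (lv : V → V → ℕ),
  HV 𝔹 m lv → ExaC 𝔹 m lv → LveC m lv

def T_EXF : Prop := ∀ (V : Type) (ρ : Sig) (𝔹 : Str ρ V) (m : ℕ) (lv : V → V → ℕ),
  HV 𝔹 m lv → ExaC 𝔹 m lv → ExfC 𝔹 m lv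

def T_NEX : Prop := ∀ (V N : Type) (ρ δ : Sig) (𝔹 : Str ρ V) (m : ℕ) (lv : V → V → ℕ)
  (𝔻 : Str δ N) (st : N → Fin m) (β : (Fin m → N) → V), Nm 𝔹 m lv 𝔻 st β → ExfC 𝔹 m lv →
    NexC 𝔹 m lv st β

def T_AML : Prop := ∀ (V : Type) (ρ : Sig) (𝔹 : Str ρ V) (m : ℕ) (lv : V → V → ℕ),
  HV 𝔹 m lv → ExaC 𝔹 m lv → AmlC 𝔹 lv

def T_CPT : Prop := ∀ (V : Type) (ρ : Sig) (𝔹 : Str ρ V) (m : ℕ) (lv : V → V → ℕ),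
  HV 𝔹 m lv → CptC 𝔹

def T_EMB : Prop := ∀ (V : Type) (ρ : Sig) (𝔹 : Str ρ V) (m : ℕ) (lv : V → V → ℕ),
  HV 𝔹 m lv → CptC 𝔹 → EmbC 𝔹

def T_OLG : Prop := ∀ (V : Type) (ρ σ : Sig) (𝔹 : Str ρ V) (m : ℕ) (lv : V → V → ℕ)
  (𝔸 : Str σ V), HV 𝔹 m lv → Tyi 𝔸 𝔹 → Oligo 𝔸

/-- paths with given types -/
def T_GLU : Prop := ∀ (V : Type) (ρ : Sig) (𝔹 : Str ρ V) (m : ℕ) (lv : V → V → ℕ),
  HV 𝔹 m lv → ∀ (n : ℕ) (p : Fin n → Fin 2 → V), ∃ f : Fin (n + 1) → V,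
    ∀ k : Fin n, tp 𝔹 ![f k.castSucc, f k.succ] = tp 𝔹 (p k)

/-- cycles with given types: `p k` is the type of the edge `(k, k + 1)`; for each small set `U` there
is an edge `k` not contained in `U` such that the levels are given by the other edges -/
def T_CYC : Prop := ∀ (V : Type) (ρ : Sig) (𝔹 : Str ρ V) (m : ℕ) (lv : V → V → ℕ),
  HV 𝔹 m lv → ∀ N, RlcN 𝔹 m lv N → ∀ (n : ℕ) (p : Fin (n + 2) → Fin 2 → V)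
    (lam : Fin (n + 2) → Fin (n + 2) → ℕ), PLev m lam →
    (∀ k, lam k (k + 1) = lv (p k 0) (p k 1)) →
    (∀ U : Finset (Fin (n + 2)), U.card ≤ N → ∃ k, ¬ (k ∈ U ∧ k + 1 ∈ U) ∧
      ∀ x y, Relation.EqvGen (fun a b => a ≠ k ∧ b = a + 1 ∧ lam x y ≤ lam a b) x y) →
    ∃ f : Fin (n + 2) → V, ∀ k, tp 𝔹 ![f k, f (k + 1)] = tp 𝔹 (p k)

def T_PTH : Prop := ∀ (V : Type) (ρ : Sig) (𝔹 : Str ρ V) (m : ℕ) (lv : V → V → ℕ),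
  T_CYC → HV 𝔹 m lv → (∃ N, RlcN 𝔹 m lv N) → ∃ L₀, ∀ L, L₀ ≤ L → PthC 𝔹 lv L

/-! ### Part 2: the Ramsey property -/

section ramsey

variable {V N : Type} {ρ σ δ : Sig} {m : ℕ}

/-- paths of names: the steps have the type of `(a, b)`, the ends are `c` and `d` -/
def NpC (𝔻 : Str δ N) (st : N → Fin m) (L : ℕ) : Prop :=
  ∀ (l : ℕ) (a b c d : Fl st) (F : Finset N), l ≤ m →
    (∀ i : Fin m, a.1 i = b.1 i ↔ (i : ℕ) < l) → Agr l c.1 d.1 →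
    ∃ (x : Fin (L + 1) → Fl st) (v : Fin L → Fl st), x 0 = c ∧ x (Fin.last L) = d ∧
      (∀ k : Fin L, tp 𝔻 (Sum.elim (x k.castSucc).1 (v k).1) = tp 𝔻 (Sum.elim a.1 b.1) ∧
        tp 𝔻 (Sum.elim (x k.succ).1 (v k).1) = tp 𝔻 (Sum.elim a.1 b.1)) ∧
      (∀ k i, (x k).1 i ∈ F → (x k).1 i = c.1 i ∨ (x k).1 i = d.1 i) ∧
      (∀ k i, (v k).1 i ∈ F → (i : ℕ) < l) ∧ ∀ k k' i, (v k).1 i = (x k').1 i → (i : ℕ) < l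

/-- The pairs `(x, v)` and `(a, b)` of flags have the same type and order. -/
def Ote (𝔻 : Str δ N) (r : N → ℕ) (x v a b : Fin m → N) : Prop :=
  tp 𝔻 (Sum.elim x v) = tp 𝔻 (Sum.elim a b) ∧ ∀ q q' : Fin m ⊕ Fin m,
    r (Sum.elim x v q) < r (Sum.elim x v q') ↔ r (Sum.elim a b q) < r (Sum.elim a b q')

/-- closure under paths of names with steps of one ordered type -/
def ZzC (𝔻 : Str δ N) (st : N → Fin m) : Prop :=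
  ∀ J : Finset N, ∃ (J' : Finset N) (r : N → ℕ), J ⊆ J' ∧ Set.InjOn r J' ∧
    ∀ (l : ℕ) (a b c d : Fl st), (∀ i, a.1 i ∈ J ∧ b.1 i ∈ J ∧ c.1 i ∈ J ∧ d.1 i ∈ J) → l ≤ m →
      (∀ i : Fin m, a.1 i = b.1 i ↔ (i : ℕ) < l) → Agr l c.1 d.1 →
      ∃ (L : ℕ) (x : Fin (L + 1) → Fl st) (v : Fin L → Fl st), x 0 = c ∧ x (Fin.last L) = d ∧
        (∀ k i, (x k).1 i ∈ J') ∧ (∀ k i, (v k).1 i ∈ J') ∧
        ∀ k : Fin L, Ote 𝔻 r (x k.castSucc).1 (v k).1 a.1 b.1 ∧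
          Ote 𝔻 r (x k.succ).1 (v k).1 a.1 b.1

/-- Canonical copies: the levels of the values of pairs of flags are monotone. -/
def CnC (𝔻 : Str δ N) (st : N → Fin m) : Prop :=
  ∀ (V : Type) (lv : V → V → ℕ), PLev m lv → ∀ J : Finset N, ∃ Y : Finset N,
    ∀ ψ : (Fin m → N) → V, ∃ φ : N → N, (∀ p ∈ J, φ p ∈ Y) ∧ TpOn 𝔻 (J : Set N) id φ ∧
      ∀ (l : ℕ) (a b c d : Fl st), (∀ i, a.1 i ∈ J ∧ b.1 i ∈ J ∧ c.1 i ∈ J ∧ d.1 i ∈ J) →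
        l ≤ m → (∀ i : Fin m, a.1 i = b.1 i ↔ (i : ℕ) < l) → Agr l c.1 d.1 →
        lv (ψ (fun i => φ (a.1 i))) (ψ (fun i => φ (b.1 i))) ≤
          lv (ψ (fun i => φ (c.1 i))) (ψ (fun i => φ (d.1 i)))

end ramsey

/-- fresh copies -/
def T_FRE : Prop := ∀ (N : Type) (δ : Sig) (𝔻 : Str δ N), Amg 𝔻 →
  ∀ (W : Type) [Finite W] (A : Set W) (f : W → N) (Λ : Type) (s : Λ → Set W) (F : Finset N),
    (∀ a, Set.InjOn f (s a)) → Set.InjOn f A →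
    ∃ f' : W → N, Injective f' ∧ (∀ w ∈ A, f' w = f w) ∧ (∀ w, w ∉ A → f' w ∉ F) ∧
      ∀ a, TpOn 𝔻 (s a) f f'

def T_NPT : Prop := ∀ (N : Type) (δ : Sig) (𝔻 : Str δ N) (m : ℕ) (st : N → Fin m), T_FRE →
  HB 𝔻 → (∀ p q : N, ty 𝔻 p = ty 𝔻 q ↔ st p = st q) →
  (∀ w w' : Fl st, tp 𝔻 w.1 = tp 𝔻 w'.1) → ∀ K, LcN 𝔻 K → ∀ L, K < L → NpC 𝔻 st L

def T_ZZN : Prop := ∀ (N : Type) (δ : Sig) (𝔻 : Str δ N) (m : ℕ) (st : N → Fin m),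
  Countable N → (∃ L, NpC 𝔻 st L) → ZzC 𝔻 st

def T_CNP : Prop := ∀ (N : Type) (δ : Sig) (𝔻 : Str δ N) (m : ℕ) (st : N → Fin m),
  Nonempty N → RmV 𝔻 → ZzC 𝔻 st → CnC 𝔻 st

def T_RMX : Prop := ∀ (V N : Type) (ρ σ δ : Sig) (𝔹 : Str ρ V) (m : ℕ) (lv : V → V → ℕ)
  (𝔸 : Str σ V) (𝔻 : Str δ N) (st : N → Fin m) (β : (Fin m → N) → V), HV 𝔹 m lv → Tyi 𝔸 𝔹 →
    Nm 𝔹 m lv 𝔻 st β → NexC 𝔹 m lv st β → CnC 𝔻 st → NcL 𝔸 m lv → RamX 𝔸 𝔹 lv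

/-! ### Part 4: polymorphisms and levels -/

/-- Polymorphisms preserve the equivalences. -/
def T_EPC : Prop := ∀ (V : Type) (ρ σ : Sig) (𝔹 : Str ρ V) (m : ℕ) (lv : V → V → ℕ)
  (𝔸 : Str σ V), HV 𝔹 m lv → Tyi 𝔸 𝔹 → EmbC 𝔹 → LveC m lv → (∃ L, PthC 𝔹 lv L) →
    UEC 𝔸 lv → EPC 𝔸 lv

/-- an endomorphism with rigid images of all pairs -/
def T_RGD : Prop := ∀ (V : Type) (ρ σ : Sig) (𝔹 : Str ρ V) (m : ℕ) (lv : V → V → ℕ)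
  (𝔸 : Str σ V), HV 𝔹 m lv → Tyi 𝔸 𝔹 → CptC 𝔹 → EmbC 𝔹 →
    ∃ e : V → V, IsHom 𝔸 𝔸 e ∧ ∀ x y, Rgd 𝔸 (e x) (e y)

def T_RGE : Prop := ∀ (V : Type) (ρ σ : Sig) (𝔹 : Str ρ V) (m : ℕ) (lv : V → V → ℕ)
  (𝔸 : Str σ V), HV 𝔹 m lv → Tyi 𝔸 𝔹 → CptC 𝔹 → EmbC 𝔹 → RamX 𝔸 𝔹 lv →
    (∃ e : V → V, IsHom 𝔸 𝔸 e ∧ ∀ x y, Rgd 𝔸 (e x) (e y)) → RgE 𝔸 lv

def T_NQC : Prop := ∀ (V : Type) (ρ σ : Sig) (𝔹 : Str ρ V) (m : ℕ) (lv : V → V → ℕ)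
  (𝔸 : Str σ V), HV 𝔹 m lv → Tyi 𝔸 𝔹 → EmbC 𝔹 → (∃ L, 1 ≤ L ∧ PthC 𝔹 lv L) → EPC 𝔸 lv →
    NqC 𝔸 m lv

section finite

variable {V : Type} {ρ σ : Sig}

/-- the finite form of `EPC` and `NqC` -/
def FncC (𝔸 : Str σ V) (m : ℕ) (lv : V → V → ℕ) : Prop :=
  ∀ (P : Type) [Finite P] [Nonempty P] (U : Finset (P → V)), ∃ U' : Finset (P → V), U ⊆ U' ∧
    ∀ F : (P → V) → V, Pool.Agent.H44.FB.LocP 𝔸 U' F → ∀ x ∈ U, ∀ y ∈ U,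
      (∀ j, (∀ p, j ≤ lv (x p) (y p)) → j ≤ lv (F x) (F y)) ∧
      ∀ l < m, (∀ p, lv (x p) (y p) = l ∧ Rgd 𝔸 (x p) (y p)) → lv (F x) (F y) = l

end finite

def T_FNC : Prop := ∀ (V : Type) (ρ σ : Sig) (𝔹 : Str ρ V) (m : ℕ) (lv : V → V → ℕ)
  (𝔸 : Str σ V), HV 𝔹 m lv → Tyi 𝔸 𝔹 → CptC 𝔹 → EPC 𝔸 lv → NqC 𝔸 m lv → FncC 𝔸 m lv

end Pool.Agent.H72.CH
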