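import Pool.Agent.H72.CH.Targets
import Pool.Agent.H57.CN.Targets
import Pool.Agent.H35.FB.PPK

/-!
# Chains of equivalence relations: targets, parts 5 (kernels), 6 (fibres) and the induction
-/

set_option autoImplicit false
set_option linter.unusedVariables false

namespace Pool.Agent.H72.CH

open Pool.Agent.H68.BP Pool.Agent.H58.SF Pool.Agent.H53.NR
open Pool.Agent.H57.LCI (Pre Realizes)
open Pool.Agent.H57.AR (tp ty Ty HomEq)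
open Pool.Agent.H57.EQ (Cx)
open Pool.Agent.H57.SO (sigF)
open Pool.Agent.H57.LH (Hmg RmV SS)
open Pool.Agent.H44.KR (HB Amg Tyi TpOn Rz LcN)
open Pool.Agent.H44.FB (CptC EmbC fbI LocP)
open Pool.Agent.H35.FB (PP)
open Pool.Agent.H57.CN (KH Lim)
open Function

/-! ### Part 5: kernels -/

section kernels

variable {V : Type} {ρ σ : Sig}

/-- Two rigid pairs, of which each binary polymorphism identifies one. -/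
structure Ker (𝔸 : Str σ V) (m : ℕ) (lv : V → V → ℕ) (i j : ℕ) (a b c a' c' d : V) : Prop where
  im : i ≤ m
  jm : j ≤ m
  ab : lv a b + 1 = i
  rab : Rgd 𝔸 a b
  cd : lv c' d + 1 = j
  rcd : Rgd 𝔸 c' d
  ac : lv a c < i
  st : ∀ h : (Fin 2 → V) → V, IsPoly 𝔸 𝔸 h →
    i ≤ lv (h ![a, a']) (h ![b, a']) ∨ j ≤ lv (h ![c, c']) (h ![c, d])

/-- The same for polymorphisms of all arities. -/
def StarC (𝔸 : Str σ V) (𝔹 : Str ρ V) (lv : V → V → ℕ) (i j : ℕ) (a b c a' c' d : V) : Prop :=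
  ∀ (P : Type) [Finite P] [Nonempty P] (f : (P → V) → V), IsPoly 𝔸 𝔸 f →
    ∀ (Z : Set P) (x y v u : P → V),
    (∀ p ∈ Z, tp 𝔹 ![x p, y p, v p] = tp 𝔹 ![a, b, c] ∧ u p = v p) →
    (∀ p, p ∉ Z → y p = x p ∧ tp 𝔹 ![x p, v p, u p] = tp 𝔹 ![a', c', d]) →
    i ≤ lv (f x) (f y) ∨ j ≤ lv (f v) (f u)

/-- The differences in `Z` are visible at `x`. -/
def GoodC (𝔸 : Str σ V) (lv : V → V → ℕ) (i : ℕ) {P : Type} (f : (P → V) → V) (Z : Set P)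
    (x : P → V) : Prop :=
  ∀ y : P → V, (∀ p ∈ Z, lv (x p) (y p) + 1 = i ∧ Rgd 𝔸 (x p) (y p)) →
    (∀ p, p ∉ Z → y p = x p) → lv (f x) (f y) < i

/-- the step -/
def StpC (𝔸 : Str σ V) (𝔹 : Str ρ V) (lv : V → V → ℕ) (i : ℕ) (a b c a' c' : V) : Prop :=
  ∀ (P : Type) [Finite P] [Nonempty P] (f : (P → V) → V), IsPoly 𝔸 𝔸 f →
    ∀ (Z : Set P) (x y v x' y' : P → V),
    (∀ p ∈ Z, tp 𝔹 ![x p, y p, v p] = tp 𝔹 ![a, b, c]) →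
    (∀ p, p ∉ Z → y p = x p ∧ tp 𝔹 ![x p, v p] = tp 𝔹 ![a', c']) →
    lv (f x) (f y) < i →
    (∀ p ∈ Z, tp 𝔹 ![x' p, v p] = tp 𝔹 ![a', c'] ∧ y' p = x' p) →
    (∀ p, p ∉ Z → tp 𝔹 ![x' p, y' p, v p] = tp 𝔹 ![a, b, c]) →
    GoodC 𝔸 lv i f Z x' ∧ i ≤ lv (f x') (f y')

/-- The set `S` of coordinates is not seen at `x₀`. -/
def Uns (lv : V → V → ℕ) (i : ℕ) {P : Type} (f : (P → V) → V) (x₀ : P → V) (S : Set P) : Prop :=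
  ∀ x y : P → V, (∀ p, i ≤ lv (x p) (x₀ p) + 1) → (∀ p, i ≤ lv (y p) (x₀ p) + 1) →
    (∀ p, p ∉ S → x p = y p) → i ≤ lv (f x) (f y)

/-- the dichotomy -/
def DicC (𝔸 : Str σ V) (lv : V → V → ℕ) (i : ℕ) : Prop :=
  ∀ (P : Type) [Finite P] [Nonempty P] (f : (P → V) → V), IsPoly 𝔸 𝔸 f →
    ∀ (x₀ : P → V) (Z : Set P), Uns lv i f x₀ Z ∨ Uns lv i f x₀ Zᶜ

/-- One coordinate is seen. -/
def OneC (𝔸 : Str σ V) (lv : V → V → ℕ) (i : ℕ) : Prop :=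
  ∀ (P : Type) [Finite P] [Nonempty P] (f : (P → V) → V), IsPoly 𝔸 𝔸 f →
    ∀ x₀ : P → V, ∃ p₀ : P, Uns lv i f x₀ {p₀}ᶜ

/-- Olšák polymorphisms modulo levels -/
def OlsC (𝔸 : Str σ V) (lv : V → V → ℕ) : Prop :=
  ∃ f : (Fin 6 → V) → V, IsPoly 𝔸 𝔸 f ∧ ∀ (r : Fin 3) (x y x' y' : V),
    lv (f (pat r x y)) (f (pat r x' y')) = lv (f (pat 0 x y)) (f (pat 0 x' y'))

end kernels

/-- Rigidity depends only on the type. -/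
def T_RGI : Prop := ∀ (V : Type) (ρ σ : Sig) (𝔹 : Str ρ V) (𝔸 : Str σ V), Tyi 𝔸 𝔹 → EmbC 𝔹 →
  ∀ x y x' y' : V, tp 𝔹 ![x, y] = tp 𝔹 ![x', y'] → Rgd 𝔸 x y → Rgd 𝔸 x' y'

/-- two pairs -/
def T_KMN : Prop := ∀ (V : Type) (ρ σ : Sig) (𝔹 : Str ρ V) (m : ℕ) (lv : V → V → ℕ)
  (𝔸 : Str σ V), HV 𝔹 m lv → EPC 𝔸 lv → NqC 𝔸 m lv → RgE 𝔸 lv → ¬ InjL 𝔸 lv →
    ∃ (i j : ℕ) (a b c a' c' d : V), Ker 𝔸 m lv i j a b c a' c' d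

def T_KST : Prop := ∀ (V : Type) (ρ σ : Sig) (𝔹 : Str ρ V) (m : ℕ) (lv : V → V → ℕ)
  (𝔸 : Str σ V), Tyi 𝔸 𝔹 → EmbC 𝔹 → ∀ (i j : ℕ) (a b c a' c' d : V),
    Ker 𝔸 m lv i j a b c a' c' d → StarC 𝔸 𝔹 lv i j a b c a' c' d

def T_STP : Prop := ∀ (V : Type) (ρ σ : Sig) (𝔹 : Str ρ V) (m : ℕ) (lv : V → V → ℕ)
  (𝔸 : Str σ V), T_RGI → HV 𝔹 m lv → Tyi 𝔸 𝔹 → EmbC 𝔹 → NqC 𝔸 m lv →
    ∀ (i j : ℕ) (a b c a' c' d : V), Ker 𝔸 m lv i j a b c a' c' d →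
    StarC 𝔸 𝔹 lv i j a b c a' c' d → StpC 𝔸 𝔹 lv i a b c a' c'

def T_DIC : Prop := ∀ (V : Type) (ρ σ : Sig) (𝔹 : Str ρ V) (m : ℕ) (lv : V → V → ℕ)
  (𝔸 : Str σ V), T_RGI → HV 𝔹 m lv → Tyi 𝔸 𝔹 → EmbC 𝔹 → (∃ L, PthC 𝔹 lv L) →
    ∀ (i j : ℕ) (a b c a' c' d : V), Ker 𝔸 m lv i j a b c a' c' d →
    StpC 𝔸 𝔹 lv i a b c a' c' → DicC 𝔸 lv i

def T_ONE : Prop := ∀ (V : Type) (ρ σ : Sig) (𝔹 : Str ρ V) (m : ℕ) (lv : V → V → ℕ)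
  (𝔸 : Str σ V), T_RGI → HV 𝔹 m lv → Tyi 𝔸 𝔹 → EmbC 𝔹 → NqC 𝔸 m lv →
    ∀ (i j : ℕ) (a b c a' c' d : V), Ker 𝔸 m lv i j a b c a' c' d → DicC 𝔸 lv i → OneC 𝔸 lv i

def T_OLS : Prop := ∀ (V : Type) (ρ σ : Sig) (𝔹 : Str ρ V) (m : ℕ) (lv : V → V → ℕ)
  (𝔸 : Str σ V), HV 𝔹 m lv → Tyi 𝔸 𝔹 → CptC 𝔹 → Oligo 𝔸 → ¬ PPConstructsK3 𝔸 → OlsC 𝔸 lv

def T_KFN : Prop := ∀ (V : Type) (ρ σ : Sig) (𝔹 : Str ρ V) (m : ℕ) (lv : V → V → ℕ)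
  (𝔸 : Str σ V), HV 𝔹 m lv → NqC 𝔸 m lv → ∀ (i j : ℕ) (a b c a' c' d : V),
    Ker 𝔸 m lv i j a b c a' c' d → OneC 𝔸 lv i → OlsC 𝔸 lv → False

/-! ### Part 6: fibres -/

section fibres

variable {V N : Type} {ρ σ δ : Sig} {m : ℕ}

/-- flags of profiles in `PS` -/
def FP (st : N → Fin m) (PS : Set (PP → N)) (w : Fin m → PP → N) : Prop :=
  ∀ i, w i ∈ PS ∧ ∀ p, st (w i p) = i

/-- the left profile of a vertex profile -/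
def lfP (τ : Fin 3 → N) : PP → N := fun p => τ p.1.1

/-- the right profile of a vertex profile -/
def rtP (τ : Fin 3 → N) : PP → N := fun p => τ p.1.2

end fibres

/-- The theorem of de Bruijn and Erdős: it is enough to colour finite oriented graphs. -/
def T_DBE : Prop := ∀ (Y : Type) (R : Y → Y → Prop),
  (∀ (k : ℕ) (A : Fin k → Fin k → Prop) (η : Fin k → Y), (∀ g g', A g g' → ¬ A g' g) →
    (∀ g g', A g g' → R (η g) (η g')) → ∃ c : Fin k → Fin 3, ∀ g g', A g g' → c g ≠ c g') →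
  ∃ c : Y → Fin 3, ∀ x y, R x y → c x ≠ c y

/-- Gluing of names along a finite oriented graph: `val g g'` are the values of the flags of
profiles in the edge `(g, g')`, `TT` is the set of the vertex profiles, and `X g` are the values of
the flags of vertex profiles at the vertex `g`. -/
def T_GLN : Prop := ∀ (V N : Type) (ρ δ : Sig) (𝔹 : Str ρ V) (m : ℕ) (lv : V → V → ℕ)
  (𝔻 : Str δ N) (st : N → Fin m) (β : (Fin m → N) → V), HV 𝔹 m lv → Nm 𝔹 m lv 𝔻 st β →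
    NexC 𝔹 m lv st β →
  ∀ (k : ℕ) (A : Fin k → Fin k → Prop), (∀ g g', A g g' → ¬ A g' g) →
  ∀ (PS : Set (PP → N)) (TT : Set (Fin 3 → N)) (dum : Fin m → N), PS.Finite →
    (∀ τ ∈ TT, lfP τ ∈ PS ∧ rtP τ ∈ PS) → (∀ i, st (dum i) = i ∧ (fun _ => dum i) ∈ TT) →
  ∀ (val : Fin k → Fin k → (Fin m → PP → N) → V) (X : Fin k → (Fin m → Fin 3 → N) → V),
    (∀ g g', A g g' → ∀ w w', FP st PS w → FP st PS w' → ∀ j ≤ m, Agr j w w' →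
      j ≤ lv (val g g' w) (val g g' w')) →
    (∀ g g', A g g' → ∀ τ : Fin m → Fin 3 → N, (∀ i, τ i ∈ TT ∧ ∀ a, st (τ i a) = i) →
      val g g' (fun i => lfP (τ i)) = X g τ ∧ val g g' (fun i => rtP (τ i)) = X g' τ) →
    (∀ g g' g₁ g₁', A g g' → A g₁ g₁' → ∀ ν : Fin m → N,
      (∀ i, (fun _ => ν i) ∈ TT ∧ st (ν i) = i) → X g (fun i _ => ν i) = X g₁ (fun i _ => ν i)) →
  ∀ (Λ : Type) (S : Λ → Set (PP → N)),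
    (∀ a g g', A g g' → ∀ w w', FP st PS w → FP st PS w' → (∀ i, w i ∈ S a ∧ w' i ∈ S a) →
      ∀ j ≤ m, j ≤ lv (val g g' w) (val g g' w') → Agr j w w') →
  ∃ (x : Fin k → Fin k → (PP → N) → N) (y : Fin k → (Fin 3 → N) → N),
    (∀ g g', A g g' → Set.InjOn (x g g') {π | π ∈ PS ∧ ∃ i, ∀ p, st (π p) = i} ∧
      ∀ π ∈ PS, ∀ i, (∀ p, st (π p) = i) → st (x g g' π) = i) ∧
    (∀ g g', A g g' → ∀ τ ∈ TT, (∃ i, ∀ a, st (τ a) = i) →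
      x g g' (lfP τ) = y g τ ∧ x g g' (rtP τ) = y g' τ) ∧
    ∀ a g g', A g g' → TpOn 𝔹 {w | FP st PS w ∧ ∀ i, w i ∈ S a} (val g g')
      (fun w => β (fun i => x g g' (w i)))

section fibres

variable {V N : Type} {ρ σ δ : Sig} {m n q : ℕ}

/-- the witnesses of the pair `p` of colours -/
def wit (t : Fin 3 → Fin n → N) (u : PP → Fin q → N) (p : PP) : (Fin n ⊕ Fin n) ⊕ Fin q → N :=
  Sum.elim (Sum.elim (t p.1.1) (t p.1.2)) (u p)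

/-- the vertex profiles -/
def TTs (t : Fin 3 → Fin n → N) (dum : Fin m → N) : Set (Fin 3 → N) :=
  {τ | (∃ i, τ = fun a => t a i) ∨ ∃ i, τ = fun _ => dum i}

/-- the profiles -/
def Pis (t : Fin 3 → Fin n → N) (u : PP → Fin q → N) (dum : Fin m → N) : Set (PP → N) :=
  {π | (∃ b, π = fun p => wit t u p b) ∨ ∃ i, π = fun _ => dum i}

/-- the element of the power of `V` given by a flag of profiles -/
def vfl (e : V → V) (β : (Fin m → N) → V) (w : Fin m → PP → N) : PP → V :=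
  fun p => e (β (fun i => w i p))

end fibres

/-- from local polymorphisms to solutions of the fibres -/
def T_PPB : Prop := T_GLN → ∀ (V N : Type) (ρ σ δ : Sig) (𝔹 : Str ρ V) (m : ℕ)
  (lv : V → V → ℕ) (𝔸 : Str σ V) (𝔻 : Str δ N) (st : N → Fin m) (β : (Fin m → N) → V),
    HV 𝔹 m lv → Tyi 𝔸 𝔹 → Nm 𝔹 m lv 𝔻 st β → NexC 𝔹 m lv st β →
  ∀ (M n q : ℕ) (φ : List (Atom (sigF (SS 𝔻) (sigN σ m) M) ((Fin n ⊕ Fin n) ⊕ Fin q)))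
    (t : Fin 3 → Fin n → N) (u : PP → Fin q → N) (dum : Fin m → N) (e : V → V)
    (U U' : Finset (PP → V)),
    (∀ p, ∀ a ∈ φ, a.Holds (fbI (NmS 𝔸 st β) 𝔻 M ∅) (wit t u p)) → (∀ i, st (dum i) = i) →
    IsHom 𝔸 𝔸 e → (∀ x y, lv (e x) (e y) = lv x y) → (∀ x y, Rgd 𝔸 (e x) (e y)) →
    (∀ w, FP st (Pis t u dum) w → vfl e β w ∈ U) → U ⊆ U' →
    (∀ F : (PP → V) → V, LocP 𝔸 U' F → ∀ x ∈ U, ∀ y ∈ U,
      (∀ j, (∀ p, j ≤ lv (x p) (y p)) → j ≤ lv (F x) (F y)) ∧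
      ∀ l < m, (∀ p, lv (x p) (y p) = l ∧ Rgd 𝔸 (x p) (y p)) → lv (F x) (F y) = l) →
  ∀ (k : ℕ) (A : Fin k → Fin k → Prop) (X : Fin k → (Fin m → Fin 3 → N) → V),
    (∀ g g', A g g' → ¬ A g' g) →
    (∀ g g', A g g' → ∃ F : (PP → V) → V, LocP 𝔸 U' F ∧ ∀ τ : Fin m → Fin 3 → N,
      (∀ i, τ i ∈ TTs t dum ∧ ∀ a, st (τ i a) = i) →
      X g τ = F (vfl e β (fun i => lfP (τ i))) ∧ X g' τ = F (vfl e β (fun i => rtP (τ i)))) →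
    (∀ g g' g₁ g₁', A g g' → A g₁ g₁' → ∀ ν : Fin m → N,
      (∀ i, (fun _ => ν i) ∈ TTs t dum ∧ st (ν i) = i) →
      X g (fun i _ => ν i) = X g₁ (fun i _ => ν i)) →
  ∃ T : Fin k → Fin n → N, ∀ g g', A g g' → ∃ y : Fin q → N, ∀ a ∈ φ,
    a.Holds (fbI (NmS 𝔸 st β) 𝔻 M ∅) (Sum.elim (Sum.elim (T g) (T g')) y)

/-- The fibres do not construct `K₃`. -/
def T_PPN : Prop := T_GLN → T_PPB → T_DBE → ∀ (V N : Type) (ρ σ δ : Sig) (𝔹 : Str ρ V) (m : ℕ)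
  (lv : V → V → ℕ) (𝔸 : Str σ V) (𝔻 : Str δ N) (st : N → Fin m) (β : (Fin m → N) → V),
    HV 𝔹 m lv → Tyi 𝔸 𝔹 → Nm 𝔹 m lv 𝔻 st β → NexC 𝔹 m lv st β → FncC 𝔸 m lv → RgE 𝔸 lv →
    ¬ PPConstructsK3 𝔸 → ∀ M : ℕ, ¬ PPConstructsK3 (fbI (NmS 𝔸 st β) 𝔻 M ∅)

/-! ### The induction -/

section avoid

variable {V : Type} {ρ σ : Sig}

/-- the class of the finite substructures which avoid the level `j` -/
def KJ (𝔹 : Str ρ V) (lv : V → V → ℕ) (j : ℕ) (W : Type) (𝕏 : Str ρ W) : Prop :=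
  ∃ x : W → V, Injective x ∧ 𝕏 = pull 𝔹 x ∧ ∀ a b, lv (x a) (x b) ≠ j

/-- The level `j` can be avoided. -/
def AvL (𝔸 : Str σ V) (lv : V → V → ℕ) (j : ℕ) : Prop :=
  ∀ (n : ℕ) (G : Fin n → V), ∃ ψ : Fin n → V, Cx 𝔸 (fun _ : Unit => G) ψ ∧
    ∀ a b, lv (ψ a) (ψ b) ≠ j

/-- The levels of `𝔹'` are the levels of `𝔹` without `j`. -/
def LvJ {V' : Type} (𝔹 : Str ρ V) (lv : V → V → ℕ) (j : ℕ) (𝔹' : Str ρ V') (lv' : V' → V' → ℕ) :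
    Prop :=
  ∀ (W : Type) [Finite W] (x : W → V') (y : W → V), tp 𝔹' x = tp 𝔹 y → ∀ a b,
    lv (y a) (y b) = if lv' (x a) (x b) < j then lv' (x a) (x b) else lv' (x a) (x b) + 1

end avoid

/-- The class has strong amalgamation. -/
def T_SBA : Prop := ∀ (V : Type) (ρ : Sig) (𝔹 : Str ρ V) (m : ℕ) (lv : V → V → ℕ) (j : ℕ),
  HV 𝔹 (m + 1) lv → ExaC 𝔹 (m + 1) lv → 1 ≤ m → j ≤ m → KH (KJ 𝔹 lv j)

/-- the limit -/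
def T_SBH : Prop := ∀ (V : Type) (ρ : Sig) (𝔹 : Str ρ V) (m : ℕ) (lv : V → V → ℕ) (j : ℕ)
  (𝔹' : Str ρ ℕ), HV 𝔹 (m + 1) lv → 1 ≤ m → j ≤ m → KH (KJ 𝔹 lv j) → Lim (KJ 𝔹 lv j) 𝔹' →
    Amg 𝔹' → ∃ lv' : ℕ → ℕ → ℕ, HV 𝔹' m lv' ∧ LvJ 𝔹 lv j 𝔹' lv'

/-- the structure on the limit -/
def T_SBE : Prop := ∀ (V : Type) (ρ σ : Sig) (𝔹 : Str ρ V) (m : ℕ) (lv : V → V → ℕ)
  (𝔸 : Str σ V) (j : ℕ) (𝔹' : Str ρ ℕ), HV 𝔹 (m + 1) lv → Tyi 𝔸 𝔹 → j ≤ m →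
    Lim (KJ 𝔹 lv j) 𝔹' → AvL 𝔸 lv j → ∃ 𝔸' : Str σ ℕ, Tyi 𝔸' 𝔹' ∧ HomEq 𝔸 𝔸'

/-- one level -/
def T_SB1 : Prop := ∀ (V : Type) (ρ σ : Sig) (𝔹 : Str ρ V) (lv : V → V → ℕ) (𝔸 : Str σ V),
  HV 𝔹 1 lv → Tyi 𝔸 𝔹 → AvL 𝔸 lv 0 → ∃ 𝔸' : Str σ Unit, HomEq 𝔸 𝔸'

/-- finitely bounded -/
def T_FBD : Prop := ∀ (V : Type) (ρ : Sig) (𝔹 : Str ρ V) (m : ℕ) (lv : V → V → ℕ),
  HV 𝔹 m lv → FinitelyBounded 𝔹

end Pool.Agent.H72.CH
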